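import Mathlib
import Pool.Agent.N419.GP.Core

/-!
# Tuples of shifts in two classes of forms: the argument at a given scale
-/

set_option autoImplicit false

namespace Pool.Agent.N419.GU

open Finset Pool.Agent.N419.GP

/-- the number of the integers `m`, `|m| ≤ R`, for which `m + a i` is prime exactly for the `i` in `J` -/
noncomputable def PZ {k : ℕ} (R : ℕ) (a : Fin (k + 1) → ℕ) (J : Finset (Fin (k + 1))) : ℕ :=
  ((Icc (-(R : ℤ)) R).filter (fun m : ℤ => ∀ i, (m + a i).toNat.Prime ↔ i ∈ J)).card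

open Classical in
/-- the good tuples of distinct elements of `V` -/
noncomputable def GT (k : ℕ) (V : Finset ℕ) (R : ℕ) (B : ℝ) : Finset (Fin (k + 1) → ℕ) :=
  (Fintype.piFinset (fun _ : Fin (k + 1) => V)).filter (fun a => Function.Injective a ∧
    ∀ J : Finset (Fin (k + 1)), J.Nonempty → B ≤ PZ R a J)

/-- the pattern counts of tuples of forms -/
def pt {k : ℕ} (f : Fin (k + 1) → ℤ × ℤ) (J : Finset (Fin (k + 1))) (N : ℕ) : ℕ :=
  ((Icc 1 N).filter (fun n : ℕ => ∀ i, ((f i).1 * (n : ℤ) + (f i).2).toNat.Prime ↔ i ∈ J)).card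

open Classical in
theorem mono_half {k : ℕ} (V : Finset ℕ) (G : Finset (Fin (k + 1) → ℤ × ℤ)) (δ γ : ℤ) (y R : ℕ) (B : ℝ)
    (hδ0 : δ ≠ 0) (hG : ∀ f ∈ G, Function.Injective f ∧ (∀ i, ∃ v ∈ V, f i = (δ, γ + v)) ∧
      ∀ J : Finset (Fin (k + 1)), B ≤ pt f J y)
    (hR : ∀ n : ℕ, 1 ≤ n → n ≤ y → |δ * n + γ| ≤ R) : G.card ≤ (GT k V R B).card := by
  apply card_le_card_of_injOn (fun f => fun i => ((f i).2 - γ).toNat)
  · intro f hf
    obtain ⟨h1, h2, h3⟩ := hG f (mem_coe.1 hf)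
    choose v hv hfv using h2
    have hval : ∀ i, ((f i).2 - γ).toNat = v i := by
      intro i
      rw [hfv i]
      simp
    have hfun : (fun i => ((f i).2 - γ).toNat) = v := funext hval
    rw [mem_coe]
    beta_reduce
    rw [hfun]
    unfold GT
    rw [mem_filter, Fintype.mem_piFinset]
    refine ⟨hv, ?_, ?_⟩
    · intro i j hij
      apply h1
      rw [hfv i, hfv j, hij]
    · intro J _
      refine (h3 J).trans ?_
      rw [Nat.cast_le]
      unfold pt PZ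
      apply card_le_card_of_injOn (fun n : ℕ => δ * (n : ℤ) + γ)
      · intro n hn
        rw [coe_filter, Set.mem_ofPred_eq, mem_Icc] at hn
        obtain ⟨⟨hn1, hn2⟩, hn3⟩ := hn
        rw [coe_filter, Set.mem_ofPred_eq, mem_Icc]
        beta_reduce
        have h4 := abs_le.1 (hR n hn1 hn2)
        refine ⟨h4, fun i => ?_⟩
        rw [← hn3 i, hfv i]
        simp only
        rw [add_assoc]
      · intro n _ n' _ h
        simp only at h
        have h5 : δ * (n : ℤ) = δ * (n' : ℤ) := by linarith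
        have h6 := mul_left_cancel₀ hδ0 h5
        exact_mod_cast h6
  · intro f hf g hg h
    obtain ⟨-, h2, -⟩ := hG f (mem_coe.1 hf)
    obtain ⟨-, h2', -⟩ := hG g (mem_coe.1 hg)
    funext i
    obtain ⟨v, hv, hfv⟩ := h2 i
    obtain ⟨v', hv', hfv'⟩ := h2' i
    have h3 := congrFun h i
    simp only at h3
    rw [hfv, hfv'] at h3 ⊢
    simp at h3
    rw [h3]

open Classical in
theorem coreU (k : ℕ) (A y M R P z n₀ : ℕ) (B d : ℝ)
    (hyp : ∀ V : Finset (ℤ × ℤ), (∀ f ∈ V, Adc A y f) →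
      (∀ p : ℕ, p ≤ z → p.Prime → ∃ r : ℤ, ∀ f ∈ V, ¬ (p : ℤ) ∣ f.1 * r + f.2) → n₀ ≤ V.card →
      ∃ G : Finset (Fin (k + 1) → ℤ × ℤ),
        (∀ f ∈ G, (∀ i, f i ∈ V) ∧ Function.Injective f) ∧
        d * (V.card : ℝ) ^ (k + 1) ≤ (G.card : ℝ) ∧ ∀ f ∈ G, ∀ J : Finset (Fin (k + 1)),
          B ≤ (pt f J y : ℝ))
    (hP : ∀ p : ℕ, p.Prime → p ≤ z → p ∣ P) (hP' : ∀ p : ℕ, p.Prime → p ≤ A → p ∣ P)
    (V : Finset ℕ) (hn₀ : n₀ ≤ V.card)
    (t : ℤ) (ht : ∀ p : ℕ, p.Prime → p ∣ P → ∀ v ∈ V, ¬ (p : ℤ) ∣ t + v)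
    (α β γ₁ γ₂ : ℤ) (hα0 : α ≠ 0) (hβ0 : β ≠ 0) (hαβ : α ≠ β) (hαA : |α| ≤ A) (hβA : |β| ≤ A)
    (hγ₁ : (P : ℤ) ∣ γ₁ - t) (hγ₂ : (P : ℤ) ∣ γ₂ - t)
    (hs₁ : ∀ v ∈ V, |γ₁ + v| ≤ y) (hs₂ : ∀ v ∈ V, |γ₂ + v| ≤ y)
    (hlow₁ : ∀ z : ℝ, (y : ℝ) / 16 ≤ z → z ≤ y / 2 → (y : ℝ) / 24 ≤ α * z + γ₁)
    (hlow₂ : ∀ z : ℝ, (y : ℝ) / 16 ≤ z → z ≤ y / 2 → (y : ℝ) / 24 ≤ β * z + γ₂)
    (hM : ∀ n : ℕ, 1 ≤ n → n ≤ y → ∀ v ∈ V, β * n + γ₂ + v ≤ M)
    (hR₁ : ∀ n : ℕ, 1 ≤ n → n ≤ y → |α * n + γ₁| ≤ R)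
    (hR₂ : ∀ n : ℕ, 1 ≤ n → n ≤ y → |β * n + γ₂| ≤ R) :
    2 ^ k * d * (V.card : ℝ) ^ (k + 1) ≤ ((GT k V R B).card : ℝ) ∨
      ∃ v ∈ V, ∃ v' ∈ V, B ≤ LL M β α (β * (γ₁ + v) - α * (γ₂ + v')) := by
  by_cases hcr : ∃ v ∈ V, ∃ v' ∈ V, B ≤ LL M β α (β * (γ₁ + v) - α * (γ₂ + v'))
  · exact Or.inr hcr
  left
  push Not at hcr
  set Va : Finset (ℤ × ℤ) := V.image (fun v : ℕ => (α, γ₁ + (v : ℤ))) with hVa
  set Vb : Finset (ℤ × ℤ) := V.image (fun v : ℕ => (β, γ₂ + (v : ℤ))) with hVb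
  have hca : Va.card = V.card := card_image_of_injective _ (by
    intro v v' h
    simpa using h)
  have hcb : Vb.card = V.card := card_image_of_injective _ (by
    intro v v' h
    simpa using h)
  have hdisj : Disjoint Va Vb := by
    rw [Finset.disjoint_left]
    intro f hf hf'
    obtain ⟨v, -, rfl⟩ := mem_image.1 hf
    obtain ⟨v', -, h⟩ := mem_image.1 hf'
    exact hαβ (Prod.ext_iff.1 h).1.symm
  have hcard : (Va ∪ Vb).card = 2 * V.card := by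
    rw [card_union_of_disjoint hdisj, hca, hcb]
    ring
  -- coprimality
  have hcop : ∀ (δ γ : ℤ), δ ≠ 0 → |δ| ≤ A → (P : ℤ) ∣ γ - t → ∀ v ∈ V,
      IsCoprime δ (γ + v) := by
    intro δ γ hδ0 hδA hγ v hv
    rw [Int.isCoprime_iff_gcd_eq_one]
    by_contra hne
    obtain ⟨p, hp, hpd⟩ := Nat.exists_prime_and_dvd hne
    have hpα : (p : ℤ) ∣ δ := (Int.natCast_dvd_natCast.2 hpd).trans (Int.gcd_dvd_left _ _)
    have hpc : (p : ℤ) ∣ γ + v :=
      (Int.natCast_dvd_natCast.2 hpd).trans (Int.gcd_dvd_right _ _)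
    have hple : p ≤ A := by
      have h3 := Int.le_of_dvd (abs_pos.2 hδ0) ((dvd_abs _ _).2 hpα)
      have h4 := h3.trans hδA
      exact_mod_cast h4
    have hpP := hP' p hp hple
    apply ht p hp hpP v hv
    have h5 : t + (v : ℤ) = (γ + v) - (γ - t) := by ring
    rw [h5]
    have hpP' : (p : ℤ) ∣ (P : ℤ) := by exact_mod_cast hpP
    exact dvd_sub hpc (hpP'.trans hγ)
  obtain ⟨G, hG1, hG2, hG3⟩ := hyp (Va ∪ Vb) (by
    intro f hf
    rcases mem_union.1 hf with hf | hf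
    · obtain ⟨v, hv, rfl⟩ := mem_image.1 hf
      refine ⟨hα0, hαA, hs₁ v hv, hcop α γ₁ hα0 hαA hγ₁ v hv, ?_⟩
      intro z hz1 hz2
      have := hlow₁ z hz1 hz2
      have h0 : (0 : ℝ) ≤ (v : ℝ) := Nat.cast_nonneg _
      push_cast
      linarith
    · obtain ⟨v, hv, rfl⟩ := mem_image.1 hf
      refine ⟨hβ0, hβA, hs₂ v hv, hcop β γ₂ hβ0 hβA hγ₂ v hv, ?_⟩
      intro z hz1 hz2
      have := hlow₂ z hz1 hz2
      have h0 : (0 : ℝ) ≤ (v : ℝ) := Nat.cast_nonneg _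
      push_cast
      linarith) (by
    intro p hpz hp
    have hpP := hP p hp hpz
    have hpP' : (p : ℤ) ∣ (P : ℤ) := by exact_mod_cast hpP
    refine ⟨0, fun f hf hdiv => ?_⟩
    rw [mul_zero, zero_add] at hdiv
    rcases mem_union.1 hf with hf | hf
    · obtain ⟨v, hv, rfl⟩ := mem_image.1 hf
      apply ht p hp hpP v hv
      have h5 : t + (v : ℤ) = (γ₁ + v) - (γ₁ - t) := by ring
      rw [h5]
      exact dvd_sub hdiv (hpP'.trans hγ₁)
    · obtain ⟨v, hv, rfl⟩ := mem_image.1 hf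
      apply ht p hp hpP v hv
      have h5 : t + (v : ℤ) = (γ₂ + v) - (γ₂ - t) := by ring
      rw [h5]
      exact dvd_sub hdiv (hpP'.trans hγ₂)) (by rw [hcard]; omega)
  rw [hcard] at hG2
  -- no mixed tuples
  have hmono : ∀ f ∈ G, (∀ i, f i ∈ Va) ∨ (∀ i, f i ∈ Vb) := by
    intro f hf
    by_contra hcon
    push Not at hcon
    obtain ⟨⟨i, hi⟩, ⟨j, hj⟩⟩ := hcon
    have hi' : f i ∈ Vb := (mem_union.1 ((hG1 f hf).1 i)).resolve_left hi
    have hj' : f j ∈ Va := (mem_union.1 ((hG1 f hf).1 j)).resolve_right hj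
    obtain ⟨v', hv', hfi⟩ := mem_image.1 hi'
    obtain ⟨v, hv, hfj⟩ := mem_image.1 hj'
    have h1 := hcr v hv v' hv'
    apply absurd h1 (not_lt.2 _)
    refine (hG3 f hf univ).trans ?_
    rw [Nat.cast_le]
    unfold pt LL
    apply card_le_card_of_injOn (fun n : ℕ => (β * n + (γ₂ + v')).toNat)
    · intro n hn
      rw [coe_filter, Set.mem_ofPred_eq, mem_Icc] at hn
      obtain ⟨⟨hn1, hn2⟩, hn3⟩ := hn
      have h4 := (hn3 j).2 (mem_univ _)
      have h5 := (hn3 i).2 (mem_univ _)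
      rw [← hfj] at h4
      rw [← hfi] at h5
      simp only at h4 h5
      have h6 := h4.pos
      have h7 := h5.pos
      have hM' := hM n hn1 hn2 v' hv'
      rw [coe_filter, Set.mem_ofPred_eq, mem_Icc]
      beta_reduce
      refine ⟨⟨h7, by omega⟩, h5, (α * (n : ℤ) + (γ₁ + v)).toNat, h4, ?_⟩
      rw [Int.toNat_of_nonneg (by omega), Int.toNat_of_nonneg (by omega)]
      ring
    · intro n hn n' hn' h
      rw [coe_filter, Set.mem_ofPred_eq, mem_Icc] at hn hn'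
      have h5 := (hn.2 i).2 (mem_univ _)
      have h5' := (hn'.2 i).2 (mem_univ _)
      rw [← hfi] at h5 h5'
      simp only at h5 h5' h
      have h6 := h5.pos
      have h6' := h5'.pos
      have h3 : β * (n : ℤ) = β * (n' : ℤ) := by omega
      have h4 := mul_left_cancel₀ hβ0 h3
      exact_mod_cast h4
  set Ga := G.filter (fun f => ∀ i, f i ∈ Va) with hGa
  set Gb := G.filter (fun f => ∀ i, f i ∈ Vb) with hGb
  have hsplit : G.card ≤ Ga.card + Gb.card := by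
    refine le_trans (card_le_card ?_) (card_union_le _ _)
    intro f hf
    rw [mem_union]
    rcases hmono f hf with h | h
    · exact Or.inl (mem_filter.2 ⟨hf, h⟩)
    · exact Or.inr (mem_filter.2 ⟨hf, h⟩)
  have ha : Ga.card ≤ (GT k V R B).card := by
    refine mono_half V Ga α γ₁ y R B hα0 (fun f hf => ?_) hR₁
    rw [hGa, mem_filter] at hf
    refine ⟨(hG1 f hf.1).2, fun i => ?_, hG3 f hf.1⟩
    obtain ⟨v, hv, hfv⟩ := mem_image.1 (hf.2 i)
    exact ⟨v, hv, hfv.symm⟩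
  have hb : Gb.card ≤ (GT k V R B).card := by
    refine mono_half V Gb β γ₂ y R B hβ0 (fun f hf => ?_) hR₂
    rw [hGb, mem_filter] at hf
    refine ⟨(hG1 f hf.1).2, fun i => ?_, hG3 f hf.1⟩
    obtain ⟨v, hv, hfv⟩ := mem_image.1 (hf.2 i)
    exact ⟨v, hv, hfv.symm⟩
  have h1 : (G.card : ℝ) ≤ 2 * ((GT k V R B).card : ℝ) := by
    have : G.card ≤ 2 * (GT k V R B).card := by omega
    exact_mod_cast this
  have h2 : d * ((2 * V.card : ℕ) : ℝ) ^ (k + 1) = 2 * (2 ^ k * d * (V.card : ℝ) ^ (k + 1)) := by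
    push_cast
    rw [mul_pow, pow_succ]
    ring
  rw [h2] at hG2
  linarith

end Pool.Agent.N419.GU
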