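import Mathlib
import Pool.Agent.N419.GU.Core

/-!
# Passing to subsets of a given cardinality
-/

set_option autoImplicit false

namespace Pool.Agent.N419.GU

open Finset

open Classical in
theorem GT_mono {k : ℕ} {V V' : Finset ℕ} (h : V' ⊆ V) (R : ℕ) (B : ℝ) : GT k V' R B ⊆ GT k V R B := by
  intro a ha
  unfold GT at ha ⊢
  rw [mem_filter, Fintype.mem_piFinset] at ha ⊢
  exact ⟨fun i => h (ha.1 i), ha.2⟩

open Classical in
/-- removing one element -/
theorem step (k : ℕ) (V : Finset ℕ) (R : ℕ) (B c : ℝ) (hc : 0 ≤ c) (hV : k + 2 ≤ V.card)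
    (h : ((GT k V R B).card : ℝ) < c * (V.card : ℝ) ^ (k + 1)) :
    ∃ v ∈ V, ((GT k (V.erase v) R B).card : ℝ) < c * ((V.erase v).card : ℝ) ^ (k + 1) := by
  by_contra hcon
  push Not at hcon
  set n := V.card with hn
  have hn0 : (0 : ℝ) < n := by
    have : 0 < n := by omega
    exact_mod_cast this
  have he : ∀ v ∈ V, ((V.erase v).card : ℝ) = n - 1 := by
    intro v hv
    rw [card_erase_of_mem hv, Nat.cast_sub (by omega)]
    simp [hn]
  -- double counting
  have h1 : ∑ v ∈ V, ((GT k (V.erase v) R B).card : ℝ) = ((GT k V R B).card : ℝ) * (n - (k + 1)) := by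
    have h2 : ∀ v ∈ V, (GT k (V.erase v) R B).card =
        ∑ a ∈ GT k V R B, if v ∉ univ.image a then 1 else 0 := by
      intro v hv
      rw [← card_filter]
      congr 1
      ext a
      unfold GT
      simp only [mem_filter, Fintype.mem_piFinset, mem_erase, mem_image, mem_univ, true_and,
        not_exists]
      constructor
      · rintro ⟨h1, h2, h3⟩
        exact ⟨⟨fun i => (h1 i).2, h2, h3⟩, fun i => (h1 i).1⟩
      · rintro ⟨⟨h1, h2, h3⟩, h4⟩
        exact ⟨fun i => ⟨h4 i, h1 i⟩, h2, h3⟩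
    have h3 : ∑ v ∈ V, (GT k (V.erase v) R B).card = (GT k V R B).card * (n - (k + 1)) := by
      rw [sum_congr rfl h2, sum_comm]
      have h4 : ∀ a ∈ GT k V R B, (∑ v ∈ V, if v ∉ univ.image a then 1 else 0) = n - (k + 1) := by
        intro a ha
        rw [← card_filter]
        unfold GT at ha
        rw [mem_filter, Fintype.mem_piFinset] at ha
        have h5 : V.filter (fun v => v ∉ univ.image a) = V \ univ.image a := by
          ext v
          simp only [mem_filter, mem_sdiff]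
        rw [h5, card_sdiff_of_subset, card_image_of_injective _ ha.2.1, card_univ, Fintype.card_fin]
        intro v hv
        obtain ⟨i, -, rfl⟩ := mem_image.1 hv
        exact ha.1 i
      rw [sum_congr rfl h4, sum_const, smul_eq_mul]
    have h6 : ((∑ v ∈ V, (GT k (V.erase v) R B).card : ℕ) : ℝ) =
        (((GT k V R B).card * (n - (k + 1)) : ℕ) : ℝ) := by rw [h3]
    rw [Nat.cast_sum] at h6
    rw [h6, Nat.cast_mul, Nat.cast_sub (by omega)]
    push_cast
    ring
  have h2 : ∑ v ∈ V, c * ((n : ℝ) - 1) ^ (k + 1) ≤ ∑ v ∈ V, ((GT k (V.erase v) R B).card : ℝ) := by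
    apply sum_le_sum
    intro v hv
    have := hcon v hv
    rw [he v hv] at this
    exact this
  rw [h1, sum_const, nsmul_eq_mul, ← hn] at h2
  have hk : (0 : ℝ) < n - (k + 1) := by
    have : ((k + 2 : ℕ) : ℝ) ≤ n := by exact_mod_cast hV
    push_cast at this
    linarith
  have h3 : ((GT k V R B).card : ℝ) * (n - (k + 1)) < c * (n : ℝ) ^ (k + 1) * (n - (k + 1)) :=
    mul_lt_mul_of_pos_right h hk
  -- Bernoulli
  have h4 : (1 : ℝ) - (k + 1) / n ≤ (1 - 1 / n) ^ (k + 1) := by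
    have h5 : (-2 : ℝ) ≤ -(1 / n) := by
      have : (1 : ℝ) / n ≤ 1 := by
        rw [div_le_one hn0]
        have : 1 ≤ n := by omega
        exact_mod_cast this
      linarith
    have h6 := one_add_mul_le_pow h5 (k + 1)
    push_cast at h6
    have e1 : (1 : ℝ) - (k + 1) / n = 1 + (k + 1) * -(1 / n) := by ring
    have e2 : (1 : ℝ) - 1 / n = 1 + -(1 / n) := by ring
    rw [e1, e2]
    exact h6
  have h5 : (n : ℝ) ^ (k + 1) * (n - (k + 1)) ≤ n * (n - 1) ^ (k + 1) := by
    have h6 : (n : ℝ) - (k + 1) = n * (1 - (k + 1) / n) := by field_simp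
    have h7 : (n : ℝ) - 1 = n * (1 - 1 / n) := by field_simp
    rw [h6, h7, mul_pow]
    have h8 : (0 : ℝ) ≤ (n : ℝ) ^ (k + 1) * n := by positivity
    calc (n : ℝ) ^ (k + 1) * (n * (1 - (k + 1) / n)) = (n : ℝ) ^ (k + 1) * n * (1 - (k + 1) / n) := by ring
      _ ≤ (n : ℝ) ^ (k + 1) * n * (1 - 1 / n) ^ (k + 1) := mul_le_mul_of_nonneg_left h4 h8
      _ = n * ((n : ℝ) ^ (k + 1) * (1 - 1 / n) ^ (k + 1)) := by ring
  have h6 : c * (n : ℝ) ^ (k + 1) * (n - (k + 1)) ≤ n * (c * ((n : ℝ) - 1) ^ (k + 1)) := by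
    have := mul_le_mul_of_nonneg_left h5 hc
    calc c * (n : ℝ) ^ (k + 1) * (n - (k + 1)) = c * ((n : ℝ) ^ (k + 1) * (n - (k + 1))) := by ring
      _ ≤ c * (n * (n - 1) ^ (k + 1)) := this
      _ = _ := by ring
  linarith

open Classical in
/-- passing to a subset of given cardinality -/
theorem avg (k : ℕ) (n₀ : ℕ) (hn₀ : k + 1 ≤ n₀) (R : ℕ) (B c : ℝ) (hc : 0 ≤ c) : ∀ (m : ℕ)
    (V : Finset ℕ), V.card = n₀ + m → ((GT k V R B).card : ℝ) < c * (V.card : ℝ) ^ (k + 1) →
    ∃ V' ⊆ V, V'.card = n₀ ∧ ((GT k V' R B).card : ℝ) < c * (V'.card : ℝ) ^ (k + 1) := by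
  intro m
  induction m with
  | zero =>
    intro V hV h
    exact ⟨V, Subset.rfl, by omega, h⟩
  | succ m ih =>
    intro V hV h
    obtain ⟨v, hv, h1⟩ := step k V R B c hc (by omega) h
    obtain ⟨V', hV', h2, h3⟩ := ih (V.erase v) (by rw [card_erase_of_mem hv]; omega) h1
    exact ⟨V', hV'.trans (erase_subset _ _), h2, h3⟩

end Pool.Agent.N419.GU
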