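import Mathlib
import Pool.Agent.N419.GP.Win
import Pool.Agent.N419.GU.Core

/-!
# Counting in a window
-/

set_option autoImplicit false

namespace Pool.Agent.N419.GU

open Finset Pool.Agent.N419.GP

/-- a residue class which avoids `-V` modulo the primes up to `Q` -/
theorem exists_t (Q : ℕ) (V : Finset ℕ)
    (hV : ∀ p : ℕ, p.Prime → ∃ r : ℕ, ∀ v ∈ V, ¬ v ≡ r [MOD p]) :
    ∃ t : ℕ, t < primorial Q ∧ ∀ p : ℕ, p.Prime → p ∣ primorial Q → ∀ v ∈ V,
      ¬ (p : ℤ) ∣ (t : ℤ) + v := by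
  choose r hr using hV
  classical
  let c : ℕ → ℕ := fun p => if hp : p.Prime then p * r p hp - r p hp else 0
  set S : Finset ℕ := (range (Q + 1)).filter Nat.Prime with hS
  have hmem : ∀ p ∈ S, p.Prime := fun p hp => (mem_filter.1 hp).2
  obtain ⟨a, ha⟩ := Nat.chineseRemainderOfFinset c (fun p => p) S
    (fun p hp => (hmem p hp).ne_zero)
    (fun p hp q hq hpq => (Nat.coprime_primes (hmem p hp) (hmem q hq)).2 hpq)
  have hpos : 0 < primorial Q := primorial_pos Q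
  refine ⟨a % primorial Q, Nat.mod_lt _ hpos, fun p hp hpP v hv hdiv => ?_⟩
  have hpS : p ∈ S := by
    rw [hS, mem_filter, mem_range]
    unfold primorial at hpP
    obtain ⟨q, hq, hpq⟩ := (Prime.dvd_finsetProd_iff hp.prime _).1 hpP
    have hq1 := mem_filter.1 hq
    have := (Nat.prime_dvd_prime_iff_eq hp hq1.2).1 hpq
    rw [this]
    exact ⟨mem_range.1 hq1.1, hq1.2⟩
  apply hr p hp v hv
  have h1 : a ≡ p * r p hp - r p hp [MOD p] := by
    have := ha p hpS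
    simpa [c, hp] using this
  have h2 : a % primorial Q ≡ a [MOD p] := (Nat.mod_modEq a _).of_dvd hpP
  have h3 : p ∣ a % primorial Q + v := by exact_mod_cast hdiv
  have h4 : a % primorial Q + v ≡ 0 [MOD p] := (Nat.modEq_zero_iff_dvd).2 h3
  have h5 : (p * r p hp - r p hp) + v ≡ 0 [MOD p] :=
    ((h2.trans h1).symm.add_right v).trans h4
  have h6 : r p hp ≤ p * r p hp := Nat.le_mul_of_pos_left _ hp.pos
  have h7 : (p * r p hp - r p hp) + v + r p hp ≡ 0 + r p hp [MOD p] := h5.add_right _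
  have h8 : (p * r p hp - r p hp) + v + r p hp = v + p * r p hp := by omega
  rw [h8, zero_add] at h7
  have h9 : v + p * r p hp ≡ v [MOD p] := by
    unfold Nat.ModEq
    simp
  exact h9.symm.trans h7

open Classical in
/-- the argument for all the translates in a window -/
theorem windowU (k A y N R P z n₀ X Dm : ℕ) (B d : ℝ)
    (hyp : ∀ V : Finset (ℤ × ℤ), (∀ f ∈ V, Adc A y f) →
      (∀ p : ℕ, p ≤ z → p.Prime → ∃ r : ℤ, ∀ f ∈ V, ¬ (p : ℤ) ∣ f.1 * r + f.2) → n₀ ≤ V.card →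
      ∃ G : Finset (Fin (k + 1) → ℤ × ℤ),
        (∀ f ∈ G, (∀ i, f i ∈ V) ∧ Function.Injective f) ∧
        d * (V.card : ℝ) ^ (k + 1) ≤ (G.card : ℝ) ∧ ∀ f ∈ G, ∀ J : Finset (Fin (k + 1)),
          B ≤ (pt f J y : ℝ))
    (hP : ∀ p : ℕ, p.Prime → p ≤ z → p ∣ P) (hP' : ∀ p : ℕ, p.Prime → p ≤ A → p ∣ P)
    (hP1 : 1 ≤ P) (hPX : P ≤ X)
    (V : Finset ℕ) (hn₀ : V.card = n₀)
    (t : ℕ) (ht : ∀ p : ℕ, p.Prime → p ∣ P → ∀ v ∈ V, ¬ (p : ℤ) ∣ (t : ℤ) + v)
    (haD : ∀ v ∈ V, v ≤ Dm)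
    (α β g₂ lo hi : ℤ) (hα0 : α ≠ 0) (hβ0 : β ≠ 0) (hαβ : α ≠ β) (hαA : |α| ≤ A) (hβA : |β| ≤ A)
    (hs : t + Dm ≤ y) (hs' : |g₂| + X + Dm ≤ y)
    (hlow₁ : ∀ z : ℝ, (y : ℝ) / 16 ≤ z → z ≤ y / 2 → (y : ℝ) / 24 ≤ α * z + t)
    (hlow₂ : ∀ z : ℝ, (y : ℝ) / 16 ≤ z → z ≤ y / 2 → (y : ℝ) / 24 ≤ β * z + g₂)
    (hM : ∀ n : ℕ, 1 ≤ n → n ≤ y → β * n + g₂ + X + Dm ≤ N)
    (hR₁ : ∀ n : ℕ, 1 ≤ n → n ≤ y → |α * n + t| ≤ R)
    (hR₂ : ∀ n s : ℕ, 1 ≤ n → n ≤ y → s < X → |β * n + (g₂ + s)| ≤ R)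
    (hR : ∀ h h' s : ℕ, h ≤ Dm → h' ≤ Dm → s < X →
      lo ≤ β * (t + h) - α * (g₂ + s + h') ∧ β * (t + h) - α * (g₂ + s + h') ≤ hi) :
    2 ^ k * d * (V.card : ℝ) ^ (k + 1) ≤ ((GT k V R B).card : ℝ) ∨
      X ≤ 2 * P * (n₀ ^ 2 * ((Icc lo hi).filter (fun c : ℤ => B ≤ LL N β α c)).card) := by
  by_cases hcase : 2 ^ k * d * (V.card : ℝ) ^ (k + 1) ≤ ((GT k V R B).card : ℝ)
  · exact Or.inl hcase
  right
  have hmain := Pool.Agent.N419.GP.count X P g₂ t lo hi (V ×ˢ V)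
    (fun x s => β * (t + x.1) - α * (g₂ + s + x.2))
    (fun c : ℤ => B ≤ LL N β α c) hP1 hPX (by
      intro o _ s s' h
      simp only at h
      have h1 : α * (s : ℤ) = α * (s' : ℤ) := by linarith
      have h2 := mul_left_cancel₀ hα0 h1
      exact_mod_cast h2) (by
      intro o ho s hs
      have ho' := mem_product.1 ho
      exact hR _ _ _ (haD _ ho'.1) (haD _ ho'.2) hs) (by
      intro s hsX hdvd
      have hsX' : (s : ℤ) < X := by exact_mod_cast hsX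
      have hs0 : (0 : ℤ) ≤ s := Nat.cast_nonneg _
      have h1 := coreU k A y N R P z n₀ B d hyp hP hP' V hn₀.ge t ht α β t (g₂ + s) hα0 hβ0
        hαβ hαA hβA (by rw [sub_self]; exact dvd_zero _) hdvd (by
          intro v hv
          have h3 := haD v hv
          rw [abs_le]
          constructor <;> omega) (by
          intro v hv
          have h2 : (v : ℤ) ≤ Dm := by exact_mod_cast haD v hv
          have h3 : (0 : ℤ) ≤ (v : ℤ) := Nat.cast_nonneg _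
          have h4 := abs_le.1 (le_refl |g₂|)
          rw [abs_le]
          constructor <;> linarith) (by
          intro z hz1 hz2
          have h2 := hlow₁ z hz1 hz2
          push_cast
          exact h2) (by
          intro z hz1 hz2
          have h2 := hlow₂ z hz1 hz2
          have h3 : (0 : ℝ) ≤ (s : ℝ) := Nat.cast_nonneg _
          push_cast
          linarith) (by
          intro n hn1 hn2 v hv
          have h2 := hM n hn1 hn2
          have h4 : (v : ℤ) ≤ Dm := by exact_mod_cast haD v hv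
          linarith) hR₁ (fun n hn1 hn2 => hR₂ n s hn1 hn2 hsX)
      rcases h1 with h1 | ⟨v, hv, v', hv', h1⟩
      · exact absurd h1 hcase
      · exact ⟨(v, v'), mem_product.2 ⟨hv, hv'⟩, h1⟩)
  rw [card_product, hn₀, ← sq] at hmain
  exact hmain

end Pool.Agent.N419.GU
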