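import Mathlib
import Pool.Agent.N419.GU.Avg
import Pool.Agent.N419.GU.Win

/-!
# Prime tuples or sums of primes: the dichotomy at a given scale
-/

set_option autoImplicit false

namespace Pool.Agent.N419.GU

open Finset Filter Topology Pool.Agent.N419.GP

/-- the proportion: `1 / 3` for pairs, `(5 / 18) ^ k` for `(k + 1)`-tuples -/
noncomputable def dnn (k : ℕ) : ℝ := if k = 1 then 1 / 3 else (5 / 18) ^ k

/-- the theorem on the proportion of tuples of forms, uniformly -/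
def FinHyp (k : ℕ) (ε : ℝ) : Prop := ∃ z n₀ C : ℕ, ∀ A : ℕ, ∀ᶠ N : ℕ in atTop,
  ∀ V : Finset (ℤ × ℤ), (∀ f ∈ V, Adc A N f) →
    (∀ p : ℕ, p ≤ z → p.Prime → ∃ r : ℤ, ∀ f ∈ V, ¬ (p : ℤ) ∣ f.1 * r + f.2) → n₀ ≤ V.card →
    ∃ G : Finset (Fin (k + 1) → ℤ × ℤ),
      (∀ f ∈ G, (∀ i, f i ∈ V) ∧ Function.Injective f) ∧
      (dnn k - ε) * (V.card : ℝ) ^ (k + 1) ≤ (G.card : ℝ) ∧ ∀ f ∈ G,
        ∀ J : Finset (Fin (k + 1)), (N : ℝ) / (Real.log N) ^ C ≤ (pt f J N : ℝ)

/-- number of primes `q` for which `m - b * q` is prime -/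
def SC (b m : ℕ) : ℕ := ((Icc 1 m).filter (fun q : ℕ => q.Prime ∧ (m - b * q).Prime)).card

/-- changing the scale -/
theorem scaleL (q C₀ : ℕ) (hq : 1 ≤ q) : ∀ᶠ N : ℕ in atTop, ∀ y : ℕ, N ≤ q * y → y ≤ 2 * N →
    (N : ℝ) / (Real.log N) ^ (C₀ + 1) ≤ (y : ℝ) / (Real.log y) ^ C₀ := by
  have tL : Tendsto (fun N : ℕ => Real.log (N : ℝ)) atTop atTop :=
    Real.tendsto_log_atTop.comp tendsto_natCast_atTop_atTop
  filter_upwards [tL.eventually_ge_atTop ((q : ℝ) * 2 ^ C₀), tL.eventually_ge_atTop 1,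
    eventually_ge_atTop (4 * q)] with N h1 h2 h3 y hy1 hy2
  have hq0 : (0 : ℝ) < q := by exact_mod_cast hq
  have hy4 : 4 ≤ y := by
    have : q * 4 ≤ q * y := by omega
    exact Nat.le_of_mul_le_mul_left this hq
  have hN0 : (0 : ℝ) < N := by
    have : 0 < N := by omega
    exact_mod_cast this
  have hy0 : (4 : ℝ) ≤ y := by exact_mod_cast hy4
  have hl0 : 0 < Real.log y := Real.log_pos (by linarith)
  have hyr : (N : ℝ) ≤ q * y := by exact_mod_cast hy1
  have hl1 : Real.log y ≤ 2 * Real.log N := by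
    have h4 : (y : ℝ) ≤ 2 * N := by exact_mod_cast hy2
    have h5 : Real.log y ≤ Real.log (2 * N) := Real.log_le_log (by linarith) h4
    rw [Real.log_mul (by norm_num) hN0.ne'] at h5
    have h6 : Real.log 2 ≤ 1 := by
      have := Real.log_two_lt_d9
      linarith
    linarith
  have h4 : (Real.log y) ^ C₀ ≤ 2 ^ C₀ * (Real.log N) ^ C₀ := by
    rw [← mul_pow]
    exact pow_le_pow_left₀ hl0.le hl1 _
  have hlN : 0 < Real.log (N : ℝ) := by linarith
  rw [div_le_div_iff₀ (by positivity) (by positivity)]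
  calc (N : ℝ) * (Real.log y) ^ C₀ ≤ (q * y) * (2 ^ C₀ * (Real.log N) ^ C₀) :=
        mul_le_mul hyr h4 (by positivity) (by positivity)
    _ = y * ((q * 2 ^ C₀) * (Real.log N) ^ C₀) := by ring
    _ ≤ y * (Real.log N * (Real.log N) ^ C₀) := by
        apply mul_le_mul_of_nonneg_left _ (by linarith)
        exact mul_le_mul_of_nonneg_right h1 (by positivity)
    _ = y * (Real.log N) ^ (C₀ + 1) := by rw [pow_succ]; ring

open Classical in
theorem main (k : ℕ) (ε : ℝ) (hf : FinHyp k ε) : ∃ n₀ C₁ : ℕ, ∀ A : ℕ, ∃ C : ℕ, 1 ≤ C ∧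
    ∀ᶠ N : ℕ in atTop, ∀ X : ℕ, C ≤ X → C * X ≤ N →
    (∀ V : Finset ℕ, (∀ v ∈ V, v ≤ X) → (∀ p : ℕ, p.Prime → ∃ r : ℕ, ∀ v ∈ V, ¬ v ≡ r [MOD p]) →
      n₀ ≤ V.card → 2 ^ k * (dnn k - ε) * (V.card : ℝ) ^ (k + 1) ≤
        ((GT k V (2 * N) ((N : ℝ) / (Real.log N) ^ C₁)).card : ℝ)) ∨
    ((∀ b : ℕ, 1 ≤ b → b ≤ A → X ≤ C * ((Icc (N - C * X) (N + C * X)).filter
        (fun m : ℕ => (N : ℝ) / (Real.log N) ^ C₁ ≤ SC b m)).card) ∧
      ∀ a b : ℕ, 1 ≤ a → a ≤ A → 1 ≤ b → b ≤ A → a ≠ b → ∀ γ : ℤ, 100 * A * |γ| ≤ N →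
        X ≤ C * ((Icc (γ - C * X) (γ + C * X)).filter
          (fun c : ℤ => (N : ℝ) / (Real.log N) ^ C₁ ≤ LL N a b c)).card) := by
  obtain ⟨z, n₁, C₀, hlam⟩ := hf
  obtain ⟨n₀, hn₀⟩ : ∃ n₀ : ℕ, n₀ = n₁ + (k + 1) := ⟨_, rfl⟩
  refine ⟨n₀, C₀ + 1, ?_⟩
  intro A
  obtain ⟨A', hA'⟩ : ∃ A' : ℕ, A' = A + 1 := ⟨_, rfl⟩
  obtain ⟨P, hP1, hPdvd, hPt⟩ : ∃ P : ℕ, 1 ≤ P ∧ (∀ p : ℕ, p.Prime → p ≤ z + A' → p ∣ P) ∧
      ∀ V : Finset ℕ, (∀ p : ℕ, p.Prime → ∃ r : ℕ, ∀ v ∈ V, ¬ v ≡ r [MOD p]) →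
      ∃ t : ℕ, t < P ∧ ∀ p : ℕ, p.Prime → p ∣ P → ∀ v ∈ V, ¬ (p : ℤ) ∣ (t : ℤ) + v := by
    refine ⟨primorial (z + A'), primorial_pos _, ?_, fun V => exists_t (z + A') V⟩
    intro p hp hle
    unfold primorial
    exact Finset.dvd_prod_of_mem (fun p => p) (mem_filter.2 ⟨mem_range.2 (by omega), hp⟩)
  obtain ⟨W, hW⟩ : ∃ W : ℕ, W = A' * 5 := ⟨_, rfl⟩
  obtain ⟨C, hC⟩ : ∃ C : ℕ, C = P + 2 * P * n₀ ^ 2 + 1000 * A' * W := ⟨_, rfl⟩
  have hW1 : 1 ≤ W := by
    rw [hW]
    exact Nat.one_le_iff_ne_zero.2 (Nat.mul_ne_zero (by omega) (by omega))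
  have hCge1 : 1000 ≤ C := by
    have : 1000 * 1 ≤ 1000 * A' * W := by
      rw [mul_assoc]
      apply Nat.mul_le_mul_left
      exact Nat.one_le_iff_ne_zero.2 (Nat.mul_ne_zero (by omega) (by omega))
    omega
  refine ⟨C, by omega, ?_⟩
  obtain ⟨y0, hy0⟩ := eventually_atTop.1 (hlam A')
  filter_upwards [scaleL (2 * A') C₀ (by omega), eventually_ge_atTop (1000 * A'),
    eventually_ge_atTop (A' * (y0 + 2))] with N hN4 hN5 hN6 X hCX hXN
  set B : ℝ := (N : ℝ) / (Real.log N) ^ (C₀ + 1) with hB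
  by_cases hcase : ∀ V : Finset ℕ, (∀ v ∈ V, v ≤ X) →
      (∀ p : ℕ, p.Prime → ∃ r : ℕ, ∀ v ∈ V, ¬ v ≡ r [MOD p]) →
      n₀ ≤ V.card → 2 ^ k * (dnn k - ε) * (V.card : ℝ) ^ (k + 1) ≤
        ((GT k V (2 * N) B).card : ℝ)
  · exact Or.inl hcase
  right
  push Not at hcase
  obtain ⟨V0, hV0X, hV0a, hV0c, hV0⟩ := hcase
  have hc0 : 0 ≤ 2 ^ k * (dnn k - ε) := by
    by_contra hcon
    push Not at hcon
    have h1 : (0 : ℝ) ≤ (V0.card : ℝ) ^ (k + 1) := by positivity
    have h2 : (0 : ℝ) ≤ ((GT k V0 (2 * N) B).card : ℝ) := Nat.cast_nonneg _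
    nlinarith
  obtain ⟨V, hVV0, hVc, hVg⟩ := avg k n₀ (by omega) (2 * N) B _ hc0 (V0.card - n₀) V0 (by omega) hV0
  have hVX : ∀ v ∈ V, v ≤ X := fun v hv => hV0X v (hVV0 hv)
  obtain ⟨t, htP, ht⟩ := hPt V (fun p hp => by
    obtain ⟨r, hr⟩ := hV0a p hp
    exact ⟨r, fun v hv => hr v (hVV0 hv)⟩)
  have hbad := not_le.2 hVg
  -- sizes
  have hPX : P ≤ X := by omega
  have hX0 : 1 ≤ X := by omega
  obtain ⟨S, hS⟩ : ∃ S : ℕ, S = A' * (5 * X) := ⟨_, rfl⟩
  have hSW : S = W * X := by rw [hS, hW]; ring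
  have hWX : 1000 * A' * S ≤ N := by
    calc 1000 * A' * S = (1000 * A' * W) * X := by rw [hSW]; ring
      _ ≤ C * X := Nat.mul_le_mul_right _ (by omega)
      _ ≤ N := hXN
  have hWC : S ≤ C * X := by
    rw [hSW]
    apply Nat.mul_le_mul_right
    have : W ≤ 1000 * A' * W := Nat.le_mul_of_pos_left _ (by omega)
    omega
  have hSX : 5 * X ≤ S := by
    rw [hS]
    exact Nat.le_mul_of_pos_left _ (by omega)
  have hA'0 : 0 < A' := by omega
  have hPp : ∀ p : ℕ, p.Prime → p ≤ z → p ∣ P := fun p hp h => hPdvd p hp (by omega)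
  have hPp' : ∀ p : ℕ, p.Prime → p ≤ A' → p ∣ P := fun p hp h => hPdvd p hp (by omega)
  have hCC : 2 * P * n₀ ^ 2 ≤ C := by omega
  have hmulle : ∀ k z : ℕ, k ≤ A' → z ≤ 5 * X → k * z ≤ S := by
    intro k z h1 h2
    rw [hS]
    exact Nat.mul_le_mul h1 h2
  have hyp : ∀ y : ℕ, y0 ≤ y → N ≤ 2 * A' * y → y ≤ 2 * N →
      ∀ V : Finset (ℤ × ℤ), (∀ f ∈ V, Adc A' y f) →
      (∀ p : ℕ, p ≤ z → p.Prime → ∃ r : ℤ, ∀ f ∈ V, ¬ (p : ℤ) ∣ f.1 * r + f.2) → n₀ ≤ V.card →
      ∃ G : Finset (Fin (k + 1) → ℤ × ℤ),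
        (∀ f ∈ G, (∀ i, f i ∈ V) ∧ Function.Injective f) ∧
        (dnn k - ε) * (V.card : ℝ) ^ (k + 1) ≤ (G.card : ℝ) ∧ ∀ f ∈ G,
          ∀ J : Finset (Fin (k + 1)), B ≤ (pt f J y : ℝ) := by
    intro y h1 h2 h3 V h4 h5 h6
    obtain ⟨G, hG1, hG2, hG3⟩ := hy0 y h1 V h4 h5 (by omega)
    exact ⟨G, hG1, hG2, fun f hf J => (hN4 y h2 h3).trans (hG3 f hf J)⟩
  refine ⟨?_, ?_⟩
  · -- the sums
    intro β hβ1 hβA
    set v : ℕ := N / β with hv
    have hv1 : β * v ≤ N := Nat.mul_div_le N β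
    have hv2 : N < β * v + β := by
      have := Nat.lt_mul_div_succ N (show 0 < β by omega)
      rw [Nat.mul_add, mul_one] at this
      exact this
    have hvN : v ≤ N := Nat.div_le_self _ _
    have hvS : 1000 * S ≤ v := by
      rw [hv, Nat.le_div_iff_mul_le (by omega)]
      calc 1000 * S * β ≤ 1000 * S * A' := Nat.mul_le_mul_left _ (by omega)
        _ = 1000 * A' * S := by ring
        _ ≤ N := hWX
    have hvy : y0 + 2 ≤ v := by
      rw [hv, Nat.le_div_iff_mul_le (by omega)]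
      calc (y0 + 2) * β ≤ (y0 + 2) * A' := Nat.mul_le_mul_left _ (by omega)
        _ = A' * (y0 + 2) := by ring
        _ ≤ N := hN6
    have hβ5 : ∀ n : ℕ, n ≤ 5 * v / 4 → 4 * (β * n) ≤ 5 * N := by
      intro n hn
      calc 4 * (β * n) = β * (4 * n) := by ring
        _ ≤ β * (5 * v) := Nat.mul_le_mul_left _ (by omega)
        _ = 5 * (β * v) := by ring
        _ ≤ 5 * N := Nat.mul_le_mul_left _ hv1
    have h1 := windowU k A' (5 * v / 4) (2 * N) (2 * N) P z n₀ X X B (dnn k - ε)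
      (hyp (5 * v / 4) (by omega) (by
        have h7 : 2 * A' * (5 * v / 4) = A' * (5 * v / 4) + A' * (5 * v / 4) := by ring
        have h8 : β * v ≤ A' * (5 * v / 4) := Nat.mul_le_mul (by omega) (by omega)
        have h9 : β * 1 ≤ A' * (5 * v / 4) := Nat.mul_le_mul (by omega) (by omega)
        omega) (by omega))
      hPp hPp' hP1 hPX V hVc t ht hVX (β : ℤ) (-1) (v : ℤ)
      (-((N + S : ℕ) : ℤ)) (-((N - S : ℕ) : ℤ))
      (by omega) (by norm_num) (by omega) (by rw [Nat.abs_cast]; omega)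
      (by rw [abs_neg, abs_one]; omega) (by omega) (by
        rw [Nat.abs_cast]
        omega) (by
        intro z hz1 hz2
        have h2 : (1 : ℝ) ≤ β := by exact_mod_cast hβ1
        have h3 : (0 : ℝ) ≤ ((5 * v / 4 : ℕ) : ℝ) := Nat.cast_nonneg _
        have h4 : (1 : ℝ) * z ≤ β * z := mul_le_mul_of_nonneg_right h2 (by linarith)
        have h5 : (0 : ℝ) ≤ t := Nat.cast_nonneg _
        rw [Int.cast_natCast]
        linarith) (by
        intro z hz1 hz2
        have h2 : ((5 * v / 4 : ℕ) : ℝ) ≤ 5 * v / 4 := by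
          have : ((5 * v / 4 : ℕ) : ℝ) ≤ ((5 * v : ℕ) : ℝ) / ((4 : ℕ) : ℝ) := Nat.cast_div_le
          push_cast at this
          exact this
        have h3 : (0 : ℝ) ≤ v := Nat.cast_nonneg _
        push_cast
        linarith) (by
        intro n hn1 hn2
        push_cast
        omega) (by
        intro n hn1 hn2
        have h3 := hβ5 n hn2
        have h4 : ((β : ℤ) * n + t) = ((β * n + t : ℕ) : ℤ) := by
          push_cast
          ring
        rw [h4, Nat.abs_cast, Int.ofNat_le]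
        omega) (by
        intro n s hn1 hn2 hs
        rw [abs_le]
        push_cast
        constructor <;> omega) (by
        intro h h' s hh hh' hs
        have e1 : (-1 : ℤ) * (t + h) - β * (v + s + h') =
            -((t + h + (β * v + β * (s + h')) : ℕ) : ℤ) := by
          push_cast
          ring
        rw [e1]
        have e2 : β * (s + h') ≤ β * (X + X) := Nat.mul_le_mul_left _ (by omega)
        have e3 : (β + 1) * (X + X) ≤ S := hmulle _ _ (by omega) (by omega)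
        have e4 : (β + 1) * (X + X) = β * (X + X) + (X + X) := by ring
        have e5 : β * 1 ≤ S := hmulle _ _ (by omega) (by omega)
        constructor
        · rw [neg_le_neg_iff, Int.ofNat_le]
          omega
        · rw [neg_le_neg_iff, Int.ofNat_le]
          omega)
    rcases h1 with h1 | h1
    · exact absurd h1 hbad
    · refine h1.trans ?_
      rw [← mul_assoc]
      apply Nat.mul_le_mul hCC
      apply card_le_card_of_injOn (fun c : ℤ => (-c).toNat)
      · intro c hc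
        rw [coe_filter, Set.mem_ofPred_eq, mem_Icc] at hc
        obtain ⟨⟨hc1, hc2⟩, hc3⟩ := hc
        rw [coe_filter, Set.mem_ofPred_eq, mem_Icc]
        beta_reduce
        refine ⟨⟨by omega, by omega⟩, hc3.trans ?_⟩
        rw [Nat.cast_le]
        unfold LL SC
        apply card_le_card
        intro q hq
        rw [mem_filter, mem_Icc] at hq ⊢
        obtain ⟨hq1, hq2, p, hp, hpq⟩ := hq
        have h3 : -c = (p : ℤ) + ((β * q : ℕ) : ℤ) := by
          push_cast
          linarith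
        have h4 : q ≤ β * q := Nat.le_mul_of_pos_left _ hβ1
        have h2 : (-c).toNat - β * q = p := by
          rw [h3]
          omega
        refine ⟨⟨hq1.1, by omega⟩, hq2, ?_⟩
        rw [h2]
        exact hp
      · intro c hc c' hc' h
        rw [coe_filter, Set.mem_ofPred_eq, mem_Icc] at hc hc'
        simp only at h
        omega
  · intro α β hα1 hαA hβ1 hβA hαβ γ hγ
    -- `α p - β q = c`: the form of `p` has slope `β`, the form of `q` has slope `α`
    set y : ℕ := N / A' with hy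
    have hy1 : A' * y ≤ N := Nat.mul_div_le N A'
    have hy2 : N < A' * y + A' := by
      have := Nat.lt_mul_div_succ N hA'0
      rw [Nat.mul_add, mul_one] at this
      exact this
    have hγ' : 200 / 3 * (A' : ℝ) * |(γ : ℝ)| ≤ N := by
      have h2 : (A' : ℝ) ≤ 3 / 2 * A := by
        rw [hA']
        push_cast
        have : (2 : ℝ) ≤ A := by exact_mod_cast (show 2 ≤ A by omega)
        linarith
      have h3 : (100 : ℝ) * A * |(γ : ℝ)| ≤ N := by
        have : (((100 * A * |γ| : ℤ)) : ℝ) ≤ ((N : ℤ) : ℝ) := by exact_mod_cast hγ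
        push_cast at this
        exact this
      have h4 := mul_le_mul_of_nonneg_right h2 (abs_nonneg (γ : ℝ))
      linarith
    have hA'r : (0 : ℝ) < A' := by exact_mod_cast hA'0
    have hyr2 : (N : ℝ) ≤ A' * y + A' := by exact_mod_cast hy2.le
    have hyA : 999 * A' ≤ A' * y := by omega
    have hy999 : 999 ≤ y := Nat.le_of_mul_le_mul_left (by rw [mul_comm A' 999]; exact hyA) hA'0
    have hyy0 : y0 ≤ y := by
      have h2 : A' * (y0 + 2) ≤ A' * (y + 1) := by
        have : A' * (y + 1) = A' * y + A' := by ring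
        omega
      have := Nat.le_of_mul_le_mul_left h2 hA'0
      omega
    have hNy : (N : ℝ) ≤ A' * (1.01 * y) := by
      have : (999 : ℝ) ≤ y := by exact_mod_cast hy999
      nlinarith
    have hγy : |(γ : ℝ)| ≤ y / 60 := by
      have h2 : (A' : ℝ) * (200 / 3 * |(γ : ℝ)|) ≤ A' * (1.01 * y) := by
        refine le_trans (le_of_eq ?_) (hγ'.trans hNy)
        ring
      have h3 := le_of_mul_le_mul_left h2 hA'r
      have : (0 : ℝ) ≤ y := Nat.cast_nonneg _
      linarith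
    have hγyz : 60 * |γ| ≤ y := by
      have : ((60 * |γ| : ℤ) : ℝ) ≤ ((y : ℤ) : ℝ) := by
        push_cast
        linarith
      exact_mod_cast this
    have hSy : 900 * S ≤ y := by
      have h2 : A' * (1000 * S) ≤ A' * y + A' := by
        have : A' * (1000 * S) = 1000 * A' * S := by ring
        omega
      have h3 : A' * (1000 * S) ≤ A' * (y + 1) := by rw [Nat.mul_add, mul_one]; exact h2
      have h4 := Nat.le_of_mul_le_mul_left h3 hA'0
      omega
    have hyN : y ≤ N := Nat.div_le_self _ _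
    have hγabs := abs_le.1 (le_refl |γ|)
    set g : ℤ := -(γ / β) with hg
    have hβ0 : (0 : ℤ) < β := by omega
    have hg1 := Int.emod_add_mul_ediv γ β
    have hg2 := Int.emod_nonneg γ hβ0.ne'
    have hg3 := Int.emod_lt_of_pos γ hβ0
    have hgabs : |g| ≤ |γ| := by
      rw [hg, abs_neg]
      have h2 := Int.natAbs_ediv_le_natAbs γ β
      rw [Int.abs_eq_natAbs, Int.abs_eq_natAbs]
      exact_mod_cast h2
    have hgy : |(g : ℝ)| ≤ y / 60 := by
      have : (|g| : ℤ) ≤ |γ| := hgabs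
      have h2 : ((|g| : ℤ) : ℝ) ≤ ((|γ| : ℤ) : ℝ) := by exact_mod_cast this
      push_cast at h2
      linarith
    have hgabs' := abs_le.1 (le_refl |g|)
    have hny : ∀ k n : ℕ, k ≤ A → n ≤ y → k * n + y ≤ N := by
      intro k n hk hn
      calc k * n + y ≤ A * y + y := Nat.add_le_add_right (Nat.mul_le_mul hk hn) _
        _ = A' * y := by rw [hA']; ring
        _ ≤ N := hy1
    have h1 := windowU k A' y N (2 * N) P z n₀ X X B (dnn k - ε)
      (hyp y hyy0 (by
        have : 2 * A' * y = A' * y + A' * y := by ring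
        omega) (by omega))
      hPp hPp' hP1 hPX V hVc t ht hVX (β : ℤ) (α : ℤ) g
      (γ - S) (γ + S)
      (by omega) (by omega) (by omega) (by rw [Nat.abs_cast]; omega)
      (by rw [Nat.abs_cast]; omega) (by omega) (by
        omega) (by
        intro z hz1 hz2
        have h2 : (1 : ℝ) ≤ β := by exact_mod_cast hβ1
        have h3 : (0 : ℝ) ≤ y := Nat.cast_nonneg _
        have h4 : (1 : ℝ) * z ≤ β * z := mul_le_mul_of_nonneg_right h2 (by linarith)
        have h5 : (0 : ℝ) ≤ t := Nat.cast_nonneg _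
        rw [Int.cast_natCast]
        linarith) (by
        intro z hz1 hz2
        have h2 := (abs_le.1 hgy).1
        have h3 : (0 : ℝ) ≤ y := Nat.cast_nonneg _
        have h4 : (1 : ℝ) ≤ α := by exact_mod_cast hα1
        have h5 : (1 : ℝ) * z ≤ α * z := mul_le_mul_of_nonneg_right h4 (by linarith)
        rw [Int.cast_natCast]
        linarith) (by
        intro n hn1 hn2
        have h3 := hny α n hαA hn2
        have h3' : (α : ℤ) * n + y ≤ N := by exact_mod_cast h3
        omega) (by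
        intro n hn1 hn2
        have h3 := hny β n hβA hn2
        have h3' : (β : ℤ) * n + y ≤ N := by exact_mod_cast h3
        have h4 : (0 : ℤ) ≤ (β : ℤ) * n := by positivity
        rw [abs_le]
        push_cast
        constructor <;> omega) (by
        intro n s hn1 hn2 hs
        have h3 := hny α n hαA hn2
        have h3' : (α : ℤ) * n + y ≤ N := by exact_mod_cast h3
        have h4 : (0 : ℤ) ≤ (α : ℤ) * n := by positivity
        rw [abs_le]
        push_cast
        constructor <;> omega) (by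
        intro h h' s hh hh' hs
        have e1 : (α : ℤ) * (t + h) - β * (g + s + h') =
            γ - γ % β + ((α * (t + h) : ℕ) : ℤ) - ((β * (s + h') : ℕ) : ℤ) := by
          rw [hg]
          push_cast
          linear_combination hg1
        rw [e1]
        have e2 : β * (s + h') ≤ β * (X + X) := Nat.mul_le_mul_left _ (by omega)
        have e3 : (β + 1) * (X + X) ≤ S := hmulle _ _ (by omega) (by omega)
        have e4 : (β + 1) * (X + X) = β * (X + X) + (X + X) := by ring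
        have e5 : β * (X + X + 1) ≤ S := hmulle _ _ (by omega) (by omega)
        have e6 : β * (X + X + 1) = β * (X + X) + β := by ring
        have e7 : α * (t + h) ≤ S := hmulle _ _ (by omega) (by omega)
        constructor <;> omega)
    rcases h1 with h1 | h1
    · exact absurd h1 hbad
    · refine h1.trans ?_
      rw [← mul_assoc]
      apply Nat.mul_le_mul hCC
      apply card_le_card
      intro c hc
      rw [mem_filter, mem_Icc] at hc ⊢
      have h2 : ((S : ℕ) : ℤ) ≤ C * X := by exact_mod_cast hWC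
      exact ⟨⟨by linarith [hc.1.1], by linarith [hc.1.2]⟩, hc.2⟩

end Pool.Agent.N419.GU
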