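import Mathlib
import Pool.Agent.N419.GU.Main

/-!
# The qualitative dichotomy for tuples
-/

set_option autoImplicit false

namespace Pool.Agent.N419.GU

open Finset Filter Topology Pool.Agent.N419.GP

theorem tend (C₁ : ℕ) : Tendsto (fun N : ℕ => (N : ℝ) / (Real.log N) ^ C₁) atTop atTop := by
  have h1 : Tendsto (fun x : ℝ => (Real.log x) ^ C₁ / x) atTop (𝓝 0) := by
    have h := (isLittleO_log_rpow_atTop (show (0 : ℝ) < 1 / (C₁ + 1 : ℝ) by positivity)).pow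
      (n := C₁ + 1) (by omega)
    have h2 : (fun x : ℝ => (Real.log x) ^ C₁) =o[atTop] (fun x : ℝ => x) := by
      refine Asymptotics.IsBigO.trans_isLittleO (g := fun x : ℝ => (Real.log x) ^ (C₁ + 1)) ?_ ?_
      · apply Asymptotics.IsBigO.of_bound 1
        filter_upwards [Real.tendsto_log_atTop.eventually_ge_atTop 1] with x hx
        rw [Real.norm_of_nonneg (by positivity), Real.norm_of_nonneg (by positivity), one_mul]
        exact pow_le_pow_right₀ hx (by omega)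
      · refine h.congr' EventuallyEq.rfl ?_
        filter_upwards [eventually_ge_atTop 0] with x hx
        rw [← Real.rpow_natCast, ← Real.rpow_mul hx]
        push_cast
        rw [one_div, inv_mul_cancel₀ (by positivity), Real.rpow_one]
    exact h2.tendsto_div_nhds_zero
  have h2 : Tendsto (fun x : ℝ => x / (Real.log x) ^ C₁) atTop atTop := by
    have h3 : Tendsto (fun x : ℝ => (Real.log x) ^ C₁ / x) atTop (𝓝[>] 0) := by
      rw [tendsto_nhdsWithin_iff]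
      refine ⟨h1, ?_⟩
      filter_upwards [Real.tendsto_log_atTop.eventually_ge_atTop 1, eventually_gt_atTop 0] with
        x hx hx0
      have : 0 < Real.log x := by linarith
      exact Set.mem_Ioi.2 (by positivity)
    refine (h3.inv_tendsto_nhdsGT_zero).congr (fun x => ?_)
    rw [Pi.inv_apply, inv_div]
  exact h2.comp tendsto_natCast_atTop_atTop

/-- a finite set is counted by a bounded number -/
theorem fin_ltU (C₁ : ℕ) (Q : ℕ → Prop) [DecidablePred Q] (h : {p : ℕ | Q p}.Finite) :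
    ∀ᶠ N : ℕ in atTop, ∀ M : ℕ, (((Icc 1 M).filter Q).card : ℝ) < (N : ℝ) / (Real.log N) ^ C₁ := by
  have h3 : ∀ᶠ N : ℕ in atTop, (h.toFinset.card : ℝ) < (N : ℝ) / (Real.log N) ^ C₁ :=
    (tend C₁).eventually_gt_atTop _
  filter_upwards [h3] with N hN M
  refine lt_of_le_of_lt ?_ hN
  rw [Nat.cast_le]
  apply card_le_card
  intro p hp
  rw [Set.Finite.mem_toFinset]
  exact (mem_filter.1 hp).2

/-- a tuple with finitely many translates of a given pattern -/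
theorem pz_lt (C₁ k : ℕ) (a : Fin (k + 1) → ℕ) (J : Finset (Fin (k + 1))) (hJ : J.Nonempty)
    (h : {n : ℕ | ∀ i, (n + a i).Prime ↔ i ∈ J}.Finite) :
    ∀ᶠ N : ℕ in atTop, ∀ R : ℕ, (PZ R a J : ℝ) < (N : ℝ) / (Real.log N) ^ C₁ := by
  obtain ⟨j, hj⟩ := hJ
  have h3 : ∀ᶠ N : ℕ in atTop, ((h.toFinset.card + (a j + 1) : ℕ) : ℝ) <
    (N : ℝ) / (Real.log N) ^ C₁ := (tend C₁).eventually_gt_atTop _
  filter_upwards [h3] with N hN R
  refine lt_of_le_of_lt ?_ hN
  rw [Nat.cast_le]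
  unfold PZ
  have hsub : ((Icc (-(R : ℤ)) R).filter (fun m : ℤ => ∀ i, (m + a i).toNat.Prime ↔ i ∈ J)) ⊆
      (h.toFinset.image (fun n : ℕ => (n : ℤ))) ∪ (Icc (-(a j : ℤ)) 0) := by
    intro m hm
    rw [mem_filter] at hm
    rw [mem_union]
    by_cases hm0 : 0 ≤ m
    · left
      rw [mem_image]
      refine ⟨m.toNat, ?_, Int.toNat_of_nonneg hm0⟩
      rw [Set.Finite.mem_toFinset]
      intro i
      rw [← hm.2 i]
      have : m.toNat + a i = (m + a i).toNat := by omega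
      rw [this]
    · right
      rw [mem_Icc]
      have h4 := ((hm.2 j).2 hj).pos
      constructor <;> omega
  refine (card_le_card hsub).trans ((card_union_le _ _).trans ?_)
  apply Nat.add_le_add card_image_le
  rw [Int.card_Icc]
  omega

open Classical in
theorem qual (k C₁ n₀ : ℕ) (d : ℝ) (h : ∀ A : ℕ, ∃ C : ℕ, 1 ≤ C ∧
    ∀ᶠ N : ℕ in atTop, ∀ X : ℕ, C ≤ X → C * X ≤ N →
    (∀ V : Finset ℕ, (∀ v ∈ V, v ≤ X) → (∀ p : ℕ, p.Prime → ∃ r : ℕ, ∀ v ∈ V, ¬ v ≡ r [MOD p]) →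
      n₀ ≤ V.card → d * (V.card : ℝ) ^ (k + 1) ≤
        ((GT k V (2 * N) ((N : ℝ) / (Real.log N) ^ C₁)).card : ℝ)) ∨
    ((∀ b : ℕ, 1 ≤ b → b ≤ A → X ≤ C * ((Icc (N - C * X) (N + C * X)).filter
        (fun m : ℕ => (N : ℝ) / (Real.log N) ^ C₁ ≤ SC b m)).card) ∧
      ∀ a b : ℕ, 1 ≤ a → a ≤ A → 1 ≤ b → b ≤ A → a ≠ b → ∀ γ : ℤ, 100 * A * |γ| ≤ N →
        X ≤ C * ((Icc (γ - C * X) (γ + C * X)).filter
          (fun c : ℤ => (N : ℝ) / (Real.log N) ^ C₁ ≤ LL N a b c)).card)) :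
    (∀ V : Finset ℕ, (∀ p : ℕ, p.Prime → ∃ r : ℕ, ∀ v ∈ V, ¬ v ≡ r [MOD p]) → n₀ ≤ V.card →
      d * (V.card : ℝ) ^ (k + 1) ≤
        (((Fintype.piFinset (fun _ : Fin (k + 1) => V)).filter (fun a => Function.Injective a ∧
          ∀ J : Finset (Fin (k + 1)), J.Nonempty →
            {n : ℕ | ∀ i, (n + a i).Prime ↔ i ∈ J}.Infinite)).card : ℝ)) ∨
    ((∀ b : ℕ, 1 ≤ b → ∃ C : ℕ, ∀ᶠ n : ℕ in atTop, ∃ p q : ℕ, p.Prime ∧ q.Prime ∧
        p + b * q ≤ n + C ∧ n ≤ p + b * q + C) ∧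
      ∀ a b : ℕ, 1 ≤ a → 1 ≤ b → a ≠ b → ∃ C : ℕ, ∀ γ : ℤ, ∃ c : ℤ, |c - γ| ≤ C ∧
        {q : ℕ | q.Prime ∧ ∃ p : ℕ, p.Prime ∧ (a : ℤ) * p - b * q = c}.Infinite) := by
  by_cases hcase : (∀ V : Finset ℕ, (∀ p : ℕ, p.Prime → ∃ r : ℕ, ∀ v ∈ V, ¬ v ≡ r [MOD p]) →
      n₀ ≤ V.card → d * (V.card : ℝ) ^ (k + 1) ≤
        (((Fintype.piFinset (fun _ : Fin (k + 1) => V)).filter (fun a => Function.Injective a ∧
          ∀ J : Finset (Fin (k + 1)), J.Nonempty →
            {n : ℕ | ∀ i, (n + a i).Prime ↔ i ∈ J}.Infinite)).card : ℝ))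
  · exact Or.inl hcase
  right
  push Not at hcase
  obtain ⟨V, hVa, hVc, hV⟩ := hcase
  obtain ⟨X₀, hX₀⟩ : ∃ X₀ : ℕ, ∀ v ∈ V, v ≤ X₀ := ⟨V.sup id, fun v hv => le_sup (f := id) hv⟩
  have ev : ∀ᶠ N : ℕ in atTop, ∀ a ∈ Fintype.piFinset (fun _ : Fin (k + 1) => V),
      ∀ J ∈ (univ : Finset (Finset (Fin (k + 1)))), J.Nonempty →
        {n : ℕ | ∀ i, (n + a i).Prime ↔ i ∈ J}.Finite →
        ∀ R : ℕ, (PZ R a J : ℝ) < (N : ℝ) / (Real.log N) ^ C₁ := by
    rw [Filter.eventually_all_finset]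
    intro a _
    rw [Filter.eventually_all_finset]
    intro J _
    by_cases h1 : J.Nonempty
    · by_cases h2 : {n : ℕ | ∀ i, (n + a i).Prime ↔ i ∈ J}.Finite
      · filter_upwards [pz_lt C₁ k a J h1 h2] with N hN _ _
        exact hN
      · exact Eventually.of_forall fun N _ h3 => absurd h3 h2
    · exact Eventually.of_forall fun N h3 => absurd h3 h1
  have key : ∀ A : ℕ, ∃ C X : ℕ, 1 ≤ X ∧ ∀ᶠ N : ℕ in atTop,
      ((∀ b : ℕ, 1 ≤ b → b ≤ A → 1 ≤ ((Icc (N - C * X) (N + C * X)).filter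
        (fun m : ℕ => (N : ℝ) / (Real.log N) ^ C₁ ≤ SC b m)).card) ∧
      ∀ a b : ℕ, 1 ≤ a → a ≤ A → 1 ≤ b → b ≤ A → a ≠ b → ∀ γ : ℤ, 100 * A * |γ| ≤ N →
        1 ≤ ((Icc (γ - C * X) (γ + C * X)).filter
          (fun c : ℤ => (N : ℝ) / (Real.log N) ^ C₁ ≤ LL N a b c)).card) := by
    intro A
    obtain ⟨C, hC1, hC⟩ := h A
    refine ⟨C, C + X₀, by omega, ?_⟩
    filter_upwards [hC, ev, eventually_ge_atTop (C * (C + X₀))] with N hN1 hN2 hN3
    rcases hN1 (C + X₀) (by omega) hN3 with h1 | h1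
    · exfalso
      have h2 := h1 V (fun v hv => (hX₀ v hv).trans (by omega)) hVa hVc
      have h3 : (GT k V (2 * N) ((N : ℝ) / (Real.log N) ^ C₁)).card ≤
          ((Fintype.piFinset (fun _ : Fin (k + 1) => V)).filter (fun a => Function.Injective a ∧
          ∀ J : Finset (Fin (k + 1)), J.Nonempty →
            {n : ℕ | ∀ i, (n + a i).Prime ↔ i ∈ J}.Infinite)).card := by
        apply card_le_card
        intro a ha
        unfold GT at ha
        rw [mem_filter] at ha ⊢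
        refine ⟨ha.1, ha.2.1, fun J hJ => ?_⟩
        by_contra hcon
        have h4 := hN2 a ha.1 J (mem_univ _) hJ (Set.not_infinite.1 hcon) (2 * N)
        have h5 := ha.2.2 J hJ
        linarith
      have h3' : ((GT k V (2 * N) ((N : ℝ) / (Real.log N) ^ C₁)).card : ℝ) ≤
          (((Fintype.piFinset (fun _ : Fin (k + 1) => V)).filter (fun a => Function.Injective a ∧
          ∀ J : Finset (Fin (k + 1)), J.Nonempty →
            {n : ℕ | ∀ i, (n + a i).Prime ↔ i ∈ J}.Infinite)).card : ℝ) := by exact_mod_cast h3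
      linarith
    · refine ⟨fun b hb1 hbA => ?_, fun a b h2 h3 h4 h5 h6 γ h7 => ?_⟩
      · have h5 := h1.1 b hb1 hbA
        by_contra hcon
        have h6 : ((Icc (N - C * (C + X₀)) (N + C * (C + X₀))).filter
          (fun m : ℕ => (N : ℝ) / (Real.log N) ^ C₁ ≤ SC b m)).card = 0 := by omega
        rw [h6, mul_zero] at h5
        omega
      · have h5 := h1.2 a b h2 h3 h4 h5 h6 γ h7
        by_contra hcon
        have h6 : ((Icc (γ - C * ((C + X₀ : ℕ) : ℤ)) (γ + C * ((C + X₀ : ℕ) : ℤ))).filter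
          (fun c : ℤ => (N : ℝ) / (Real.log N) ^ C₁ ≤ LL N a b c)).card = 0 := by omega
        rw [h6, mul_zero] at h5
        omega
  refine ⟨?_, ?_⟩
  · intro b hb
    obtain ⟨C, X, hX, hev⟩ := key b
    refine ⟨C * X, ?_⟩
    filter_upwards [hev, (tend C₁).eventually_gt_atTop 0] with N hN hN1
    obtain ⟨m, hm⟩ := card_pos.1 (show 0 < _ from hN.1 b hb le_rfl)
    rw [mem_filter, mem_Icc] at hm
    have h1 : (0 : ℝ) < SC b m := lt_of_lt_of_le hN1 hm.2
    have h2 : 0 < SC b m := by exact_mod_cast h1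
    obtain ⟨q, hq⟩ := card_pos.1 h2
    rw [mem_filter] at hq
    have h3 := hq.2.2.pos
    refine ⟨m - b * q, q, hq.2.2, hq.2.1, ?_, ?_⟩ <;> omega
  · intro a b ha hb hab
    obtain ⟨C, X, hX, hev⟩ := key (a + b)
    refine ⟨C * X, fun γ => ?_⟩
    by_contra hcon
    push Not at hcon
    have ev : ∀ᶠ N : ℕ in atTop, ∀ c ∈ Icc (γ - C * X) (γ + C * X),
        (LL N a b c : ℝ) < (N : ℝ) / (Real.log N) ^ C₁ := by
      rw [Filter.eventually_all_finset]
      intro c hc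
      rw [mem_Icc] at hc
      have h1 := hcon c (by
        rw [abs_le]
        push_cast
        constructor <;> linarith [hc.1, hc.2])
      have := fin_ltU C₁ (fun q => q.Prime ∧ ∃ p : ℕ, p.Prime ∧ (a : ℤ) * p - b * q = c) h1
      filter_upwards [this] with N hN
      exact hN N
    obtain ⟨N, hN1, hN2, hN3⟩ := (hev.and (ev.and
      (eventually_ge_atTop (100 * (a + b) * γ.natAbs)))).exists
    have h1 := hN1.2 a b ha (by omega) hb (by omega) hab γ (by
      rw [Int.abs_eq_natAbs]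
      exact_mod_cast hN3)
    obtain ⟨c, hc⟩ := card_pos.1 (show 0 < _ from h1)
    rw [mem_filter] at hc
    have h2 := hN2 c hc.1
    linarith [hc.2]

end Pool.Agent.N419.GU
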