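import Mathlib
import Pool.Agent.Y827.HD.Her
import Pool.Agent.N419.GU.Qual

/-!
# The proportion theorem for forms
-/

set_option autoImplicit false

namespace Pool.Agent.N419.GU

theorem finHyp (k : ℕ) (ε : ℝ) (hε : 0 < ε) : FinHyp k ε := by
  obtain ⟨z, n₀, C, -, h⟩ := Pool.Agent.Y827.HD.finH k ε hε
  exact ⟨z, n₀, C, h⟩

/-- the proportion: `2 / 3` for pairs, `(5 / 9) ^ k` for `(k + 1)`-tuples -/
theorem dnn_two (k : ℕ) (ε : ℝ) :
    2 ^ k * (dnn k - ε / 2 ^ k) = (if k = 1 then 2 / 3 else (5 / 9) ^ k) - ε := by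
  have h2 : (2 : ℝ) ^ k ≠ 0 := by positivity
  unfold dnn
  split_ifs with h
  · subst h
    norm_num
    ring
  · rw [mul_sub, mul_div_cancel₀ _ h2, ← mul_pow]
    norm_num

end Pool.Agent.N419.GU
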